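import Mathlib
import Pool.Agent.H20.CircDefs
import Pool.Agent.H20.CircMix

set_option autoImplicit false

namespace Pool.Agent.Results.MP_fe6464_co.Strict

open Pool.Agent.H20.CircDefs Pool.Agent.H20.CircMix

theorem result : ∃ G : SimpleGraph (Fin 8), ¬ G.Colorable 2 ∧
    circMixThreshold G = 5 ∧ mixThreshold G = 6 :=
  ⟨G, not_bip, Mc_eq, M_eq⟩

end Pool.Agent.Results.MP_fe6464_co.Strict
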